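import Pool.Agent.Helper89.Vol5.Goals

/-! # MP_cd13d2_co, packet V58-P312 -/

set_option autoImplicit false

namespace Pool.Agent.Helper36.Vol5.PkP312

open MeasureTheory Set Pool.Agent.Helper86.Poly Pool.Agent.Helper89.Vol5

/-- The norm in coordinates. -/
lemma nsq (u : E 5) : ‖u‖ ^ 2 = u 0 ^ 2 + u 1 ^ 2 + u 2 ^ 2 + u 3 ^ 2 + u 4 ^ 2 := by
  rw [EuclideanSpace.norm_sq_eq, Fin.sum_univ_five]
  simp only [Real.norm_eq_abs, sq_abs]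

theorem thm (h : Pool.Agent.Helper89.Vol4.G_Q212) (hF : G_FRM5) (hA : G_AX) : G_P312 := by
  intro y hy
  obtain ⟨L, ε, hε, hdt, he0, he1, hf0, hf1, hg0, hg1, hn1, hn0⟩ :=
    hF (y 1 - y 0) (y 2 - y 0) (y 5 - y 4) (y 7 - y 6)
  obtain ⟨x, hx⟩ : ∃ x : Fin 8 → E 5, ∀ k, x k = L (y k - y 0) := ⟨_, fun _ => rfl⟩
  have hsub : ∀ i j, x i - x j = L (y i - y j) := by
    intro i j
    rw [hx, hx, ← map_sub]
    congr 1
    abel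
  have hd : ∀ i j, ‖x i - x j‖ ^ 2 ≤ 1 := by
    intro i j
    have h1 : ‖x i - x j‖ ≤ 1 := by
      rw [hsub, LinearIsometryEquiv.norm_map, ← dist_eq_norm]
      exact hy i j
    exact pow_le_one₀ (norm_nonneg _) h1
  have hco : ∀ i j, (x i 0 - x j 0) ^ 2 + (x i 1 - x j 1) ^ 2 + (x i 2 - x j 2) ^ 2 +
      (x i 3 - x j 3) ^ 2 + (x i 4 - x j 4) ^ 2 ≤ 1 := by
    intro i j
    have h1 := hd i j
    rw [nsq] at h1
    exact h1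
  have hx0 : x 0 = 0 := by
    rw [hx, sub_self, map_zero]
  have hx0' : ∀ m : Fin 5, x 0 m = 0 := by
    intro m
    rw [hx0]
    rfl
  rw [← hx] at he0 he1 hf0 hf1
  rw [← hsub] at hg0 hg1 hn1 hn0
  obtain ⟨Δ, hΔ, -, hΔ2, -⟩ := hA (x 1) (x 2) (x 5 - x 4) he0 he1 hf0 hf1 hg0 hg1
  have g0 : x 5 0 = x 4 0 := by
    rw [PiLp.sub_apply] at hg0
    exact sub_eq_zero.1 hg0
  have g1 : x 5 1 = x 4 1 := by
    rw [PiLp.sub_apply] at hg1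
    exact sub_eq_zero.1 hg1
  have g2 : x 7 1 = x 6 1 := by
    rw [PiLp.sub_apply] at hn1
    exact sub_eq_zero.1 hn1
  have g3 : x 6 0 ≤ x 7 0 := by
    rw [PiLp.sub_apply] at hn0
    exact sub_nonneg.1 hn0
  -- the determinants
  have hB : ∀ i j, ε * dt (y 1 - y 0) (y 2 - y 0) (y 5 - y 4) (y i - y 0) (y j - y 0) =
      Δ * (x i 0 * x j 1 - x i 1 * x j 0) := by
    intro i j
    rw [← hdt, ← hx, ← hx, ← hx, ← hx, ← hsub, hΔ]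
  obtain ⟨X, hX⟩ : ∃ X, X = (x 3 0 * x 4 1 - x 3 1 * x 4 0) + (x 4 0 * x 6 1 - x 4 1 * x 6 0) +
      (x 6 0 * x 6 1 - x 6 1 * x 7 0) := ⟨_, rfl⟩
  have hP : ε * q312 y = Δ * X := by
    have e1 := hB 3 4
    have e2 := hB 4 6
    have e3 := hB 6 7
    rw [g2] at e3
    unfold q312
    rw [hX]
    linear_combination e1 + e2 + e3
  have hεsq : ε ^ 2 = 1 := by
    rcases hε with h | h <;> rw [h] <;> norm_num
  have hp2 : q312 y ^ 2 = Δ ^ 2 * X ^ 2 := by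
    have h1 : (ε * q312 y) ^ 2 = (Δ * X) ^ 2 := by rw [hP]
    rw [mul_pow, hεsq, one_mul, mul_pow] at h1
    exact h1
  -- the triangle
  obtain ⟨s, hs⟩ : ∃ s, s = ‖x 1‖ ^ 2 + ‖x 2‖ ^ 2 + ‖x 1 - x 2‖ ^ 2 := ⟨_, rfl⟩
  have hs0 : 0 ≤ s := by
    rw [hs]
    positivity
  have hs3 : s ≤ 3 := by
    have h1 := hd 1 0
    have h2 := hd 2 0
    have h3 := hd 1 2
    rw [hx0, sub_zero] at h1 h2
    rw [hs]
    linarith
  have hgram : 12 * (‖x 1‖ ^ 2 * ‖x 2‖ ^ 2 - inner ℝ (x 1) (x 2) ^ 2) ≤ s ^ 2 := by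
    have h1 := norm_sub_sq_real (x 1) (x 2)
    obtain ⟨A, hA'⟩ : ∃ A, A = ‖x 1‖ ^ 2 := ⟨_, rfl⟩
    obtain ⟨B, hB'⟩ : ∃ B, B = ‖x 2‖ ^ 2 := ⟨_, rfl⟩
    obtain ⟨C, hC'⟩ : ∃ C, C = ‖x 1 - x 2‖ ^ 2 := ⟨_, rfl⟩
    have h2 : inner ℝ (x 1) (x 2) = (A + B - C) / 2 := by
      rw [hA', hB', hC']
      linarith
    rw [hs, h2, ← hA', ← hB', ← hC']
    nlinarith [sq_nonneg (A - B), sq_nonneg (A - C), sq_nonneg (B - C)]
  obtain ⟨l, hl⟩ : ∃ l, l = ‖x 5 - x 4‖ := ⟨_, rfl⟩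
  have hl0 : 0 ≤ l := by
    rw [hl]
    exact norm_nonneg _
  have hl1 : l ≤ 1 := by
    have := hd 5 4
    rw [← hl] at this
    nlinarith
  have hDl : Δ ^ 2 ≤ 3 / 4 * (s / 3 * l) ^ 2 := by
    refine hΔ2.trans ?_
    rw [← hl]
    have h1 := mul_le_mul_of_nonneg_right hgram (sq_nonneg l)
    nlinarith
  -- coordinates
  have hsc : s = (x 1 2 ^ 2 + x 1 3 ^ 2 + x 1 4 ^ 2) + (x 2 2 ^ 2 + x 2 3 ^ 2 + x 2 4 ^ 2) +
      ((x 1 2 - x 2 2) ^ 2 + (x 1 3 - x 2 3) ^ 2 + (x 1 4 - x 2 4) ^ 2) := by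
    rw [hs, nsq, nsq, nsq]
    simp only [PiLp.sub_apply, he0, he1, hf0, hf1]
    ring
  have hlc : l ^ 2 = (x 5 2 - x 4 2) ^ 2 + (x 5 3 - x 4 3) ^ 2 + (x 5 4 - x 4 4) ^ 2 := by
    rw [hl, nsq]
    simp only [PiLp.sub_apply, g0, g1]
    ring
  have hls : (s / 3) ^ 2 / 4 ≤ s / 9 := by nlinarith
  have hO : ∀ k, x k 0 ^ 2 + x k 1 ^ 2 ≤ 1 - (s / 3) ^ 2 / 4 := by
    intro k
    have h1 := hco k 0
    have h2 := hco k 1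
    have h3 := hco k 2
    rw [hx0', hx0', hx0', hx0', hx0'] at h1
    rw [he0, he1] at h2
    rw [hf0, hf1] at h3
    have h4 : x k 0 ^ 2 + x k 1 ^ 2 ≤ 1 - s / 9 := by
      rw [hsc]
      linarith [sq_nonneg (3 * x k 2 - x 1 2 - x 2 2), sq_nonneg (3 * x k 3 - x 1 3 - x 2 3),
        sq_nonneg (3 * x k 4 - x 1 4 - x 2 4)]
    linarith
  have hC : ∀ k, (x k 0 - x 4 0) ^ 2 + (x k 1 - x 4 1) ^ 2 ≤ 1 - l ^ 2 / 4 := by
    intro k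
    have h1 := hco k 4
    have h2 := hco k 5
    rw [g0, g1] at h2
    rw [hlc]
    linarith [sq_nonneg (2 * x k 2 - x 4 2 - x 5 2), sq_nonneg (2 * x k 3 - x 4 3 - x 5 3),
      sq_nonneg (2 * x k 4 - x 4 4 - x 5 4)]
  have hb : x 4 0 ^ 2 + x 4 1 ^ 2 ≤ 1 - ((s / 3) ^ 2 + l ^ 2) / 4 := by
    have h1 := hco 4 0
    have h2 := hco 4 1
    have h3 := hco 4 2
    have h4 := hco 5 0
    have h5 := hco 5 1
    have h6 := hco 5 2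
    rw [hx0', hx0', hx0', hx0', hx0'] at h1 h4
    rw [he0, he1] at h2 h5
    rw [hf0, hf1] at h3 h6
    rw [g0, g1] at h4 h5 h6
    have h7 : x 4 0 ^ 2 + x 4 1 ^ 2 ≤ 1 - s / 9 - l ^ 2 / 4 := by
      rw [hsc, hlc]
      linarith [sq_nonneg (3 * x 4 2 + 3 * x 5 2 - 2 * x 1 2 - 2 * x 2 2),
        sq_nonneg (3 * x 4 3 + 3 * x 5 3 - 2 * x 1 3 - 2 * x 2 3),
        sq_nonneg (3 * x 4 4 + 3 * x 5 4 - 2 * x 1 4 - 2 * x 2 4)]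
    linarith
  have hpl : ∀ i j, (x i 0 - x j 0) ^ 2 + (x i 1 - x j 1) ^ 2 ≤ 1 := by
    intro i j
    have := hco i j
    linarith [sq_nonneg (x i 2 - x j 2), sq_nonneg (x i 3 - x j 3), sq_nonneg (x i 4 - x j 4)]
  have h67 : (x 7 0 - x 6 0) ^ 2 ≤ 1 := by
    have := hpl 7 6
    linarith [sq_nonneg (x 7 1 - x 6 1)]
  have hO7 := hO 7
  have hC7 := hC 7
  have hw := hpl 7 3
  rw [g2] at hO7 hC7 hw
  have key := h (s / 3) l (x 4 0) (x 4 1) (x 3 0) (x 3 1) (x 6 0) (x 6 1) (x 7 0)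
    (by positivity) (by linarith) hl0 hl1 g3 (hO 3) (hO 6) hO7 (hC 3) (hC 6) hC7 hb (hpl 6 3) hw
    h67
  rw [← hX] at key
  have hfin : q312 y ^ 2 ≤ (0.901 : ℝ) ^ 2 := by
    rw [hp2]
    have h1 : (s / 3 * l * |X|) ^ 2 ≤ (1.04 : ℝ) ^ 2 := pow_le_pow_left₀ (by positivity) key 2
    rw [mul_pow, sq_abs] at h1
    have h2 := mul_le_mul_of_nonneg_right hDl (sq_nonneg X)
    calc Δ ^ 2 * X ^ 2 ≤ 3 / 4 * (s / 3 * l) ^ 2 * X ^ 2 := h2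
      _ = 3 / 4 * ((s / 3 * l) ^ 2 * X ^ 2) := by rw [mul_assoc]
      _ ≤ 3 / 4 * (1.04 : ℝ) ^ 2 := mul_le_mul_of_nonneg_left h1 (by norm_num)
      _ ≤ (0.901 : ℝ) ^ 2 := by norm_num
  exact abs_le_of_sq_le_sq hfin (by norm_num)

end Pool.Agent.Helper36.Vol5.PkP312
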